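import Pool.Agent.Helper68.PD.OneHub

/-! PD-5: the sequence of hubs. -/

set_option autoImplicit false

namespace Pool.Agent.Helper32.PD.H82

open Finset Pool.Agent.Helper32.PD
open scoped Classical

variable {V : Type}

/-! ### Counting -/

theorem cnt_mono (side : V → Bool) (b : Bool) {S T : Finset V} (h : S ⊆ T) :
    cnt side b S ≤ cnt side b T := by
  unfold cnt
  exact_mod_cast card_le_card (filter_subset_filter _ h)

theorem cnt_union (side : V → Bool) (b : Bool) (S T : Finset V) :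
    cnt side b (S ∪ T) ≤ cnt side b S + cnt side b T := by
  unfold cnt
  rw [filter_union]
  exact_mod_cast card_union_le _ _

theorem cnt_nonneg (side : V → Bool) (b : Bool) (S : Finset V) : 0 ≤ cnt side b S := by
  unfold cnt; positivity

theorem cnt_sdiff (side : V → Bool) (b : Bool) (S T : Finset V) :
    cnt side b S - cnt side b T ≤ cnt side b (S \ T) := by
  have h : cnt side b S ≤ cnt side b ((S \ T) ∪ T) :=
    cnt_mono side b (by intro x hx; simp only [mem_union, mem_sdiff]; tauto)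
  have := cnt_union side b (S \ T) T
  linarith

theorem cnt_le_card (side : V → Bool) (b : Bool) (S : Finset V) :
    cnt side b S ≤ S.card := by
  unfold cnt
  exact_mod_cast card_filter_le _ _

theorem cnt_biUnion {ι : Type} (side : V → Bool) (b : Bool) (s : Finset ι) (S : ι → Finset V) :
    cnt side b (s.biUnion S) ≤ ∑ i ∈ s, cnt side b (S i) := by
  induction s using Finset.induction_on with
  | empty => simp [cnt]
  | insert a s ha ih =>
    rw [biUnion_insert, sum_insert ha]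
    exact (cnt_union side b _ _).trans (by linarith)

theorem nbh_mono [Fintype V] (F : SimpleGraph V) {S T : Finset V} (h : S ⊆ T) :
    nbh F S ⊆ nbh F T := by
  intro x hx
  simp only [nbh, mem_filter, mem_univ, true_and] at hx ⊢
  obtain ⟨s, hs, h1⟩ := hx
  exact ⟨s, h hs, h1⟩

/-- a chosen neighbour in `S` -/
noncomputable def pick (F : SimpleGraph V) (S : Finset V) (x : V) : V :=
  if h : ∃ s ∈ S, F.Adj s x then h.choose else x

theorem pick_spec [Fintype V] (F : SimpleGraph V) {S : Finset V} {x : V} (h : x ∈ nbh F S) :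
    pick F S x ∈ S ∧ F.Adj x (pick F S x) := by
  simp only [nbh, mem_filter, mem_univ, true_and] at h
  unfold pick
  rw [dif_pos h]
  exact ⟨h.choose_spec.1, h.choose_spec.2.symm⟩

/-- the elements on the side `b` with a neighbour in `S` -/
noncomputable def qq [Fintype V] (F : SimpleGraph V) (side : V → Bool) (b : Bool) (S : Finset V) :
    Finset V := (nbh F S).filter fun v => side v = b

theorem card_qq [Fintype V] (F : SimpleGraph V) (side : V → Bool) (b : Bool) (S : Finset V) :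
    ((qq F side b S).card : ℝ) = cnt side b (nbh F S) := rfl

theorem card_qq_le [Fintype V] {F : SimpleGraph V} {side : V → Bool} {n : ℕ} {δ c : ℝ}
    (H : Host F side n δ c) (b : Bool) (S : Finset V) : ((qq F side b S).card : ℝ) ≤ n := by
  rw [← H.card b]
  exact_mod_cast card_le_card (filter_subset_filter _ (subset_univ _))

/-- the vertices that see too many chosen neighbours -/
noncomputable def bad [Fintype V] (F : SimpleGraph V) (Q : Finset V) (f : V → V) (m : ℝ) :
    Finset V := univ.filter fun v => m < ((Q.filter fun x => F.Adj v (f x)).card : ℝ)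

theorem cnt_bad [Fintype V] {F : SimpleGraph V} {side : V → Bool} {n : ℕ} {δ c : ℝ}
    (H : Host F side n δ c) (hn : 1 ≤ n) (Q : Finset V) (hQ : (Q.card : ℝ) ≤ n) (f : V → V)
    {η : ℝ} (hη : 0 < η) (hδ : 0 ≤ δ) (b : Bool) :
    cnt side b (bad F Q f (η * n)) ≤ δ / η * n := by
  have hn0 : (0 : ℝ) < n := by exact_mod_cast hn
  set Bb := (bad F Q f (η * n)).filter fun v => side v = b with hBb
  have h1 : (Bb.card : ℝ) * (η * n) ≤
      ∑ v ∈ Bb, ((Q.filter fun x => F.Adj v (f x)).card : ℝ) := by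
    rw [← nsmul_eq_mul]
    apply card_nsmul_le_sum
    intro v hv
    simp only [hBb, bad, mem_filter, mem_univ, true_and] at hv
    exact hv.1.le
  have h2 : ∑ v ∈ Bb, ((Q.filter fun x => F.Adj v (f x)).card : ℝ) =
      ∑ x ∈ Q, ((Bb.filter fun v => F.Adj v (f x)).card : ℝ) := by
    simp only [card_filter, Nat.cast_sum]
    exact sum_comm
  have h3 : ∑ x ∈ Q, ((Bb.filter fun v => F.Adj v (f x)).card : ℝ) ≤ Q.card * (δ * n) := by
    rw [← nsmul_eq_mul]
    apply sum_le_card_nsmul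
    intro x _
    refine le_trans ?_ (H.deg (f x) b)
    unfold cnt
    norm_cast
    apply card_le_card
    intro v hv
    simp only [hBb, mem_filter, mem_univ, true_and] at hv ⊢
    exact ⟨hv.2.symm, hv.1.2⟩
  have h4 : (Bb.card : ℝ) * (η * n) ≤ n * (δ * n) := by
    rw [h2] at h1
    exact h1.trans (h3.trans (mul_le_mul_of_nonneg_right hQ (by positivity)))
  have h5 : (Bb.card : ℝ) ≤ δ / η * n := by
    rw [div_mul_eq_mul_div, le_div_iff₀ hη]
    have : (Bb.card : ℝ) * η * n ≤ δ * n * n := by nlinarith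
    exact le_of_mul_le_mul_right this hn0
  exact h5

/-! ### The induction -/

/-- The state after `t` steps. `D l = (I l, S l, sd l)`. -/
structure Inv [Fintype V] (F : SimpleGraph V) (side : V → Bool) (n : ℕ) (δ c κ η : ℝ) (μ : ℕ → ℝ)
    (t : ℕ) (D : ℕ → Finset V × Finset V × Bool) : Prop where
  conn : ∀ l, l < t → Conn F (D l).1
  disjI : ∀ l l', l < l' → l' < t →
    Disjoint (D l').1 ((D l).1 ∪ nbh F (D l).1 ∪ nbh F (D l).2.1)
  sub : ∀ l, l < t → (D l).2.1 ⊆ nbh F (D l).1
  disjS : ∀ l, l < t → Disjoint (D l).2.1 (D l).1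
  disjS' : ∀ l l', l' < l → l < t → Disjoint (D l).2.1 ((D l').1 ∪ nbh F (D l').1)
  disjB : ∀ l l', l' < l → l < t → Disjoint (D l).2.1
    (bad F (qq F side (D l').2.2 (D l').2.1) (pick F (D l').2.1) (η * n))
  size : ∀ l, l < t → κ * n ≤ cnt side (D l).2.2 (nbh F (D l).2.1)
  cI : ∀ l, l < t → ∀ b, cnt side b (D l).1 ≤ c * n
  cN : ∀ l, l < t → ∀ b, cnt side b (nbh F (D l).1) ≤ (μ l + δ) * n
  cS : ∀ l, l < t → ∀ b, cnt side b (nbh F (D l).2.1) ≤ (κ + δ) * n

theorem inv_step [Fintype V] {F : SimpleGraph V} {side : V → Bool} {n : ℕ} {δ c κ η μ₀ : ℝ}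
    (H : Host F side n δ c) (hn : 1 ≤ n) (hc0 : 0 < c) (hcδ : c ≤ δ) (hδ8 : δ ≤ 1 / 8)
    (hκ : 0 < κ) (hη : 0 < η) (hμ₀ : 0 < μ₀) (T t : ℕ) (ht : t < T)
    (hκT : κ * (16 * (T + 1)) ≤ 1) (hμT : μ₀ * 16 ^ T * (16 * (T + 1)) ≤ κ)
    (hδμ : (2 * (T + 1)) * δ + T * (δ / η) ≤ μ₀ / 2) (D : ℕ → Finset V × Finset V × Bool)
    (h : Inv F side n δ c κ η (fun l => μ₀ * 16 ^ l) t D) :
    ∃ D', Inv F side n δ c κ η (fun l => μ₀ * 16 ^ l) (t + 1) D' := by
  have hn0 : (0 : ℝ) < n := by exact_mod_cast hn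
  have hT1 : (1 : ℝ) ≤ T := by exact_mod_cast (by omega : 1 ≤ T)
  have htT : (t : ℝ) ≤ T := by exact_mod_cast ht.le
  have hδ0 : 0 < δ := hc0.trans_le hcδ
  have hδη : 0 < δ / η := by positivity
  -- sizes of the scales
  have hpow : ∀ l, l ≤ T → μ₀ * 16 ^ l ≤ μ₀ * 16 ^ T := fun l hl =>
    mul_le_mul_of_nonneg_left (pow_le_pow_right₀ (by norm_num) hl) hμ₀.le
  have hgeo : ∀ s : ℕ, ∑ l ∈ range s, μ₀ * (16 : ℝ) ^ l ≤ μ₀ * 16 ^ s / 15 := by
    intro s
    induction s with
    | zero => simp; positivity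
    | succ s ih =>
      rw [sum_range_succ, pow_succ]
      linarith
  have hμt : μ₀ ≤ μ₀ * 16 ^ t := by
    have : (1 : ℝ) ≤ 16 ^ t := one_le_pow₀ (by norm_num)
    nlinarith
  have hκ1 : κ ≤ 1 / 32 := by nlinarith
  have hμT' : μ₀ * 16 ^ T * (T + 1) ≤ κ / 16 := by linarith
  have hδμ₀ : δ ≤ μ₀ := by nlinarith
  have hμT'' : μ₀ * 16 ^ T ≤ κ / 16 := by
    have : 0 < μ₀ * 16 ^ T := by positivity
    nlinarith
  have hμκ : μ₀ ≤ κ / 16 := by
    have : (1 : ℝ) ≤ 16 ^ T := one_le_pow₀ (by norm_num)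
    nlinarith
  -- the set to avoid
  set E : Finset V := (range t).biUnion fun l =>
    (D l).1 ∪ nbh F (D l).1 ∪ nbh F (D l).2.1 with hE
  have hEc : ∀ b, cnt side b E ≤ n / 4 := by
    intro b
    have h1 := cnt_biUnion side b (range t) fun l =>
      (D l).1 ∪ nbh F (D l).1 ∪ nbh F (D l).2.1
    have h2 : ∑ l ∈ range t, cnt side b ((D l).1 ∪ nbh F (D l).1 ∪ nbh F (D l).2.1) ≤
        ∑ l ∈ range t, (c + (μ₀ * 16 ^ T + δ) + (κ + δ)) * n := by
      refine sum_le_sum fun l hl => ?_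
      have hlt := mem_range.mp hl
      have a1 := cnt_union side b ((D l).1 ∪ nbh F (D l).1) (nbh F (D l).2.1)
      have a2 := cnt_union side b (D l).1 (nbh F (D l).1)
      have a3 := h.cI l hlt b
      have a4 := h.cN l hlt b
      have a5 := h.cS l hlt b
      have a6 := hpow l (by omega)
      nlinarith
    rw [sum_const, card_range, nsmul_eq_mul] at h2
    have h3 : (t : ℝ) * ((c + (μ₀ * 16 ^ T + δ) + (κ + δ)) * n) ≤ n / 4 := by
      have h4 : (t : ℝ) * (c + (μ₀ * 16 ^ T + δ) + (κ + δ)) ≤ 1 / 4 := by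
        have h5 : (t : ℝ) * (c + (μ₀ * 16 ^ T + δ) + (κ + δ)) ≤
            T * (c + (μ₀ * 16 ^ T + δ) + (κ + δ)) :=
          mul_le_mul_of_nonneg_right htT (by positivity)
        have h6 : (T : ℝ) * (c + (μ₀ * 16 ^ T + δ) + (κ + δ)) ≤
            T * (4 * κ) := mul_le_mul_of_nonneg_left (by linarith) (by positivity)
        nlinarith
      nlinarith
    linarith
  obtain ⟨J, hJE, hJc, ⟨b₀, hb₀⟩, hJN, hJI⟩ := Host.exists_hub H hn hδ8 hc0 (by linarith) E hEc
    (μ₀ * 16 ^ t) (by linarith) (by linarith [hpow t ht.le])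
  -- the set of possible leaves
  set E' : Finset V := (range t).biUnion fun l => (D l).1 ∪ nbh F (D l).1 with hE'
  set Bd : Finset V := (range t).biUnion fun l =>
    bad F (qq F side (D l).2.2 (D l).2.1) (pick F (D l).2.1) (η * n) with hBd
  set P : Finset V := nbh F J \ (J ∪ E' ∪ Bd) with hP
  have hPc : c * n ≤ cnt side b₀ P := by
    have h1 := cnt_sdiff side b₀ (nbh F J) (J ∪ E' ∪ Bd)
    have h2 := cnt_union side b₀ (J ∪ E') Bd
    have h3 := cnt_union side b₀ J E'
    have h4 := hJI b₀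
    have h5 : cnt side b₀ E' ≤ ∑ l ∈ range t, (c * n + (μ₀ * 16 ^ l + δ) * n) := by
      refine (cnt_biUnion side b₀ _ _).trans (sum_le_sum fun l hl => ?_)
      have hlt := mem_range.mp hl
      have a2 := cnt_union side b₀ (D l).1 (nbh F (D l).1)
      have a3 := h.cI l hlt b₀
      have a4 := h.cN l hlt b₀
      linarith
    have h6 : cnt side b₀ Bd ≤ ∑ l ∈ range t, δ / η * n := by
      refine (cnt_biUnion side b₀ _ _).trans (sum_le_sum fun l hl => ?_)
      exact cnt_bad H hn _ (card_qq_le H _ _) _ hη hδ0.le b₀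
    have h7 : ∑ l ∈ range t, (c * n + (μ₀ * 16 ^ l + δ) * n) =
        ((t : ℝ) * (c + δ) + ∑ l ∈ range t, μ₀ * (16 : ℝ) ^ l) * n := by
      rw [add_mul, sum_mul, ← sub_eq_zero]
      simp only [sum_add_distrib, add_mul, sum_const, card_range, nsmul_eq_mul]
      ring
    have h8 := hgeo t
    rw [sum_const, card_range, nsmul_eq_mul] at h6
    have h9 : c * n + (((t : ℝ) * (c + δ) + ∑ l ∈ range t, μ₀ * (16 : ℝ) ^ l) * n) +
        t * (δ / η * n) + c * n ≤ μ₀ * 16 ^ t * n := by
      have h10 : 2 * c + (t : ℝ) * (c + δ) + ∑ l ∈ range t, μ₀ * (16 : ℝ) ^ l + t * (δ / η) ≤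
          μ₀ * 16 ^ t := by
        have a1 : (t : ℝ) * (c + δ) ≤ T * (2 * δ) := by nlinarith
        have a2 : (t : ℝ) * (δ / η) ≤ T * (δ / η) := by nlinarith
        nlinarith
      nlinarith
    rw [h7] at h5
    linarith
  obtain ⟨S, hSP, ⟨b₁, hb₁⟩, hSN⟩ := Host.exists_small H hn P b₀ hPc κ hκ (by linarith)
  refine ⟨Function.update D t (J, S, b₁), ?_⟩
  set D' := Function.update D t (J, S, b₁) with hD'
  have e : ∀ l, l < t → D' l = D l := fun l hl => Function.update_of_ne (ne_of_lt hl) _ _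
  have e' : D' t = (J, S, b₁) := Function.update_self _ _ _
  have hJl : ∀ l, l < t → Disjoint J ((D l).1 ∪ nbh F (D l).1 ∪ nbh F (D l).2.1) := by
    intro l hl
    refine disjoint_of_subset_right ?_ hJE
    exact subset_biUnion_of_mem (fun l => (D l).1 ∪ nbh F (D l).1 ∪ nbh F (D l).2.1)
      (mem_range.mpr hl)
  have hPJ : Disjoint P (J ∪ E' ∪ Bd) := sdiff_disjoint
  constructor
  · intro l hl
    rcases Nat.lt_succ_iff_lt_or_eq.mp hl with h1 | rfl
    · rw [e l h1]; exact h.conn l h1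
    · rw [e']; exact hJc
  · intro l l' hll hl
    rcases Nat.lt_succ_iff_lt_or_eq.mp hl with h1 | rfl
    · rw [e l' h1, e l (by omega)]; exact h.disjI l l' hll h1
    · rw [e', e l hll]; exact hJl l hll
  · intro l hl
    rcases Nat.lt_succ_iff_lt_or_eq.mp hl with h1 | rfl
    · rw [e l h1]; exact h.sub l h1
    · rw [e']; exact hSP.trans sdiff_subset
  · intro l hl
    rcases Nat.lt_succ_iff_lt_or_eq.mp hl with h1 | rfl
    · rw [e l h1]; exact h.disjS l h1
    · rw [e']
      refine disjoint_of_subset_left hSP (disjoint_of_subset_right ?_ hPJ)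
      exact subset_union_left.trans subset_union_left
  · intro l l' hll hl
    rcases Nat.lt_succ_iff_lt_or_eq.mp hl with h1 | rfl
    · rw [e l h1, e l' (by omega)]; exact h.disjS' l l' hll h1
    · rw [e', e l' hll]
      refine disjoint_of_subset_left hSP (disjoint_of_subset_right ?_ hPJ)
      refine Subset.trans ?_ (subset_union_right.trans subset_union_left)
      exact subset_biUnion_of_mem (fun l => (D l).1 ∪ nbh F (D l).1) (mem_range.mpr hll)
  · intro l l' hll hl
    rcases Nat.lt_succ_iff_lt_or_eq.mp hl with h1 | rfl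
    · rw [e l h1, e l' (by omega)]; exact h.disjB l l' hll h1
    · rw [e', e l' hll]
      refine disjoint_of_subset_left hSP (disjoint_of_subset_right ?_ hPJ)
      refine Subset.trans ?_ subset_union_right
      exact subset_biUnion_of_mem (fun l =>
        bad F (qq F side (D l).2.2 (D l).2.1) (pick F (D l).2.1) (η * n)) (mem_range.mpr hll)
  · intro l hl
    rcases Nat.lt_succ_iff_lt_or_eq.mp hl with h1 | rfl
    · rw [e l h1]; exact h.size l h1
    · rw [e']; exact hb₁
  · intro l hl b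
    rcases Nat.lt_succ_iff_lt_or_eq.mp hl with h1 | rfl
    · rw [e l h1]; exact h.cI l h1 b
    · rw [e']; exact (hJI b).le
  · intro l hl b
    rcases Nat.lt_succ_iff_lt_or_eq.mp hl with h1 | rfl
    · rw [e l h1]; exact h.cN l h1 b
    · rw [e']; exact hJN b
  · intro l hl b
    rcases Nat.lt_succ_iff_lt_or_eq.mp hl with h1 | rfl
    · rw [e l h1]; exact h.cS l h1 b
    · rw [e']; exact hSN b

theorem card_badx {α β : Type} (A : Finset α) (B : Finset β) (R : α → β → Prop) {m ζ η : ℝ}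
    (hm : 0 < m) (hζ : 0 < ζ) (hη : 0 ≤ η) (hB : (B.card : ℝ) ≤ m)
    (h : ∀ y ∈ B, ((A.filter fun x => R x y).card : ℝ) ≤ η * m) :
    ((A.filter fun x => ζ * m < ((B.filter fun y => R x y).card : ℝ)).card : ℝ) ≤
      η / ζ * m := by
  set Bd := A.filter fun x => ζ * m < ((B.filter fun y => R x y).card : ℝ) with hBd
  have h1 : (Bd.card : ℝ) * (ζ * m) ≤ ∑ x ∈ Bd, ((B.filter fun y => R x y).card : ℝ) := by
    rw [← nsmul_eq_mul]
    apply card_nsmul_le_sum
    intro v hv
    exact (mem_filter.mp hv).2.le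
  have h2 : ∑ x ∈ Bd, ((B.filter fun y => R x y).card : ℝ) =
      ∑ y ∈ B, ((Bd.filter fun x => R x y).card : ℝ) := by
    simp only [card_filter, Nat.cast_sum]
    exact sum_comm
  have h3 : ∑ y ∈ B, ((Bd.filter fun x => R x y).card : ℝ) ≤ B.card * (η * m) := by
    rw [← nsmul_eq_mul]
    apply sum_le_card_nsmul
    intro y hy
    refine le_trans ?_ (h y hy)
    exact_mod_cast card_le_card (filter_subset_filter _ (filter_subset _ _))
  have h4 : (Bd.card : ℝ) * (ζ * m) ≤ m * (η * m) := by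
    rw [h2] at h1
    exact h1.trans (h3.trans (mul_le_mul_of_nonneg_right hB (by positivity)))
  rw [div_mul_eq_mul_div, le_div_iff₀ hζ]
  have : (Bd.card : ℝ) * ζ * m ≤ η * m * m := by nlinarith
  exact le_of_mul_le_mul_right this hm

theorem inv_zero [Fintype V] (F : SimpleGraph V) (side : V → Bool) (n : ℕ) (δ c κ η : ℝ)
    (μ : ℕ → ℝ) (D : ℕ → Finset V × Finset V × Bool) : Inv F side n δ c κ η μ 0 D := by
  constructor <;> intros <;> omega

theorem exists_inv [Fintype V] {F : SimpleGraph V} {side : V → Bool} {n : ℕ} {δ c κ η μ₀ : ℝ}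
    (H : Host F side n δ c) (hn : 1 ≤ n) (hc0 : 0 < c) (hcδ : c ≤ δ) (hδ8 : δ ≤ 1 / 8)
    (hκ : 0 < κ) (hη : 0 < η) (hμ₀ : 0 < μ₀) (T : ℕ)
    (hκT : κ * (16 * (T + 1)) ≤ 1) (hμT : μ₀ * 16 ^ T * (16 * (T + 1)) ≤ κ)
    (hδμ : (2 * (T + 1)) * δ + T * (δ / η) ≤ μ₀ / 2) :
    ∃ D, Inv F side n δ c κ η (fun l => μ₀ * 16 ^ l) T D := by
  have : ∀ t, t ≤ T → ∃ D, Inv F side n δ c κ η (fun l => μ₀ * 16 ^ l) t D := by
    intro t
    induction t with
    | zero => exact fun _ => ⟨fun _ => (∅, ∅, true), inv_zero _ _ _ _ _ _ _ _ _⟩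
    | succ t ih =>
      intro ht
      obtain ⟨D, hD⟩ := ih (by omega)
      exact inv_step H hn hc0 hcδ hδ8 hκ hη hμ₀ T t (by omega) hκT hμT hδμ D hD
  exact this T le_rfl

theorem exists_hubs (T : ℕ) : ∃ κ : ℝ, 0 < κ ∧ ∀ θ : ℝ, 0 < θ → ∃ δ₀ : ℝ, 0 < δ₀ ∧
    ∀ (V : Type) [Fintype V] (F : SimpleGraph V) (side : V → Bool) (n : ℕ) (δ c : ℝ), 1 ≤ n →
      0 < c → c ≤ δ → δ ≤ δ₀ → Host F side n δ c →
      ∃ (I Q : Fin T → Finset V) (f : Fin T → V → V) (sd : Fin T → Bool),
        Hubs F I Q f ∧ (∀ l, ∀ x ∈ Q l, side x = sd l ∧ F.Adj x (f l x)) ∧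
        (∀ l l', ∀ x ∈ Q l, ∀ y ∈ I l', x ≠ y ∧ ¬ F.Adj x y) ∧
        (∀ l, κ * n ≤ (Q l).card) ∧
        (∀ l l', l ≠ l' → ∀ x ∈ Q l,
          (((Q l').filter fun y => F.Adj (f l x) (f l' y)).card : ℝ) ≤ θ * n) ∧
        ∀ b, cnt side b (univ.biUnion fun l =>
          (I l ∪ (Q l).image (f l)) ∪ nbh F (I l ∪ (Q l).image (f l))) ≤ n / 4 := by
  have hT1 : (0 : ℝ) < T + 1 := by positivity
  set κ : ℝ := 1 / (16 * (T + 1)) with hκd
  have hκ : 0 < κ := by positivity
  have hκT : κ * (16 * (T + 1)) ≤ 1 := by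
    rw [hκd]; field_simp; exact le_refl _
  refine ⟨κ / 2, by positivity, fun θ hθ => ?_⟩
  set η : ℝ := θ * κ / (4 * (T + 1)) with hηd
  have hη : 0 < η := by positivity
  set μ₀ : ℝ := κ / (16 ^ T * (16 * (T + 1))) with hμd
  have hμ₀ : 0 < μ₀ := by positivity
  have hμT : μ₀ * 16 ^ T * (16 * (T + 1)) ≤ κ := by
    rw [hμd]; field_simp; exact le_refl _
  set δ₀ : ℝ := min (1 / 8) (μ₀ / (2 * (2 * (T + 1) + T / η))) with hδd
  have hden : 0 < 2 * (2 * ((T : ℝ) + 1) + T / η) := by positivity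
  refine ⟨δ₀, by positivity, ?_⟩
  intro V _ F side n δ c hn hc0 hcδ hδδ H
  have hn0 : (0 : ℝ) < n := by exact_mod_cast hn
  have hδ0 : 0 < δ := hc0.trans_le hcδ
  have hδμ : (2 * (T + 1)) * δ + T * (δ / η) ≤ μ₀ / 2 := by
    have h1 : δ ≤ μ₀ / (2 * (2 * (T + 1) + T / η)) := hδδ.trans (min_le_right _ _)
    rw [le_div_iff₀ hden] at h1
    have h2 : (2 * ((T : ℝ) + 1)) * δ + T * (δ / η) = δ * (2 * (2 * (T + 1) + T / η)) / 2 := by
      ring
    rw [h2]; linarith
  obtain ⟨D, hD⟩ := exists_inv H hn hc0 hcδ (hδδ.trans (min_le_left _ _)) hκ hη hμ₀ T hκT hμT hδμ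
  have hηθ : η ≤ θ := by
    rw [hηd, div_le_iff₀ (by positivity)]
    have : κ ≤ 1 := by
      rw [hκd, div_le_one (by positivity)]; linarith [(Nat.cast_nonneg T : (0:ℝ) ≤ T)]
    have hT0 : (0:ℝ) ≤ T := Nat.cast_nonneg T
    nlinarith
  -- scales
  have hpow : ∀ l, l ≤ T → μ₀ * 16 ^ l ≤ μ₀ * 16 ^ T := fun l hl =>
    mul_le_mul_of_nonneg_left (pow_le_pow_right₀ (by norm_num) hl) hμ₀.le
  have hT0 : (0:ℝ) ≤ T := Nat.cast_nonneg T
  have hX1 : 0 < μ₀ * 16 ^ T := by positivity
  have hμκ : μ₀ * 16 ^ T ≤ κ / 16 := by nlinarith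
  have hδμ₀ : δ ≤ μ₀ / 4 := by
    have : 0 ≤ T * (δ / η) := by positivity
    nlinarith
  have hμ16 : μ₀ ≤ μ₀ * 16 ^ T := by
    have : (1 : ℝ) ≤ 16 ^ T := one_le_pow₀ (by norm_num)
    nlinarith
  set I : Fin T → Finset V := fun l => (D l).1 with hI
  set S : Fin T → Finset V := fun l => (D l).2.1 with hS
  set sd : Fin T → Bool := fun l => (D l).2.2 with hsd
  set f : Fin T → V → V := fun l => pick F (S l) with hf
  set Q₀ : Fin T → Finset V := fun l => qq F side (sd l) (S l) with hQ₀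
  set X : Finset V := univ.biUnion fun l => I l ∪ nbh F (I l) with hX
  set Bx : Fin T → Finset V := fun l => univ.biUnion fun l' => if l < l' then (Q₀ l).filter
    fun x => θ * n < (((Q₀ l').filter fun y => F.Adj (f l x) (f l' y)).card : ℝ) else ∅ with hBx
  have hpick : ∀ l, ∀ x ∈ Q₀ l, f l x ∈ S l ∧ F.Adj x (f l x) := fun l x hx =>
    pick_spec F (mem_filter.mp hx).1
  have hSbad : ∀ l l', l' < l → ∀ v ∈ S l,
      (((Q₀ l').filter fun x => F.Adj v (f l' x)).card : ℝ) ≤ η * n := by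
    intro l l' hll v hv
    have h1 := Finset.disjoint_left.mp (hD.disjB l l' hll l.2) hv
    simp only [bad, mem_filter, mem_univ, true_and, not_lt] at h1
    exact h1
  have hmemN : ∀ (A : Finset V) (x y : V), x ∈ A → F.Adj x y → y ∈ nbh F A := by
    intro A x y hx hxy
    simp only [nbh, mem_filter, mem_univ, true_and]
    exact ⟨x, hx, hxy⟩
  -- anticompleteness
  have hII : ∀ l l', l < l' → ∀ x ∈ I l, ∀ y ∈ I l', x ≠ y ∧ ¬ F.Adj x y := by
    intro l l' hll x hx y hy
    have h1 := Finset.disjoint_left.mp (hD.disjI l l' hll l'.2) hy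
    simp only [mem_union, not_or] at h1
    refine ⟨fun h => h1.1.1 (h ▸ hx), fun h => h1.1.2 (hmemN _ _ _ hx h)⟩
  have hSI : ∀ l l', l ≠ l' → ∀ v ∈ S l, ∀ y ∈ I l', v ≠ y ∧ ¬ F.Adj v y := by
    intro l l' hll v hv y hy
    rcases lt_or_gt_of_ne hll with h | h
    · have h1 := Finset.disjoint_left.mp (hD.disjI l l' h l'.2) hy
      simp only [mem_union, not_or] at h1
      refine ⟨fun e => h1.1.2 (e ▸ hD.sub l l.2 hv), fun e => h1.2 (hmemN _ _ _ hv e)⟩
    · have h1 := Finset.disjoint_left.mp (hD.disjS' l l' h l.2) hv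
      simp only [mem_union, not_or] at h1
      refine ⟨fun e => h1.1 (e ▸ hy), fun e => h1.2 (hmemN _ _ _ hy e.symm)⟩
  refine ⟨I, fun l => Q₀ l \ (X ∪ Bx l), f, sd, ?_, ?_, ?_, ?_, ?_, ?_⟩
  · constructor
    · exact fun l => hD.conn l l.2
    · intro l l' hll x hx y hy
      rcases lt_or_gt_of_ne hll with h | h
      · exact hII l l' h x hx y hy
      · have := hII l' l h y hy x hx
        exact ⟨this.1.symm, fun e => this.2 e.symm⟩
    · intro l x hx
      exact Finset.disjoint_left.mp (hD.disjS l l.2) (hpick l x (mem_sdiff.mp hx).1).1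
    · intro l x hx
      have h1 := hD.sub l l.2 (hpick l x (mem_sdiff.mp hx).1).1
      simp only [nbh, mem_filter, mem_univ, true_and] at h1
      obtain ⟨s, hs, h2⟩ := h1
      exact ⟨s, hs, h2.symm⟩
    · intro l l' hll x hx y hy
      exact hSI l l' hll _ (hpick l x (mem_sdiff.mp hx).1).1 y hy
  · intro l x hx
    exact ⟨(mem_filter.mp (mem_sdiff.mp hx).1).2, (hpick l x (mem_sdiff.mp hx).1).2⟩
  · intro l l' x hx y hy
    have h1 := (mem_sdiff.mp hx).2
    simp only [hX, mem_union, not_or, mem_biUnion, mem_univ, true_and, not_exists] at h1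
    have h2 := h1.1 l'
    exact ⟨fun e => h2.1 (e ▸ hy), fun e => h2.2 (hmemN _ _ _ hy e.symm)⟩
  · intro l
    have h0 : (κ * n : ℝ) ≤ cnt side (sd l) (Q₀ l) := by
      have := hD.size l l.2
      have e : cnt side (sd l) (Q₀ l) = cnt side (sd l) (nbh F (S l)) := by
        simp only [hQ₀, qq, cnt, filter_filter, and_self]
      rw [e]; exact this
    have h1 := cnt_sdiff side (sd l) (Q₀ l) (X ∪ Bx l)
    have h2 := cnt_union side (sd l) X (Bx l)
    have h3 : cnt side (sd l) X ≤ κ / 4 * n := by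
      refine (cnt_biUnion side (sd l) _ _).trans ?_
      have h4 : ∑ i : Fin T, cnt side (sd l) (I i ∪ nbh F (I i)) ≤
          ∑ _i : Fin T, (c + (μ₀ * 16 ^ T + δ)) * n := by
        refine sum_le_sum fun i _ => ?_
        have a2 := cnt_union side (sd l) (I i) (nbh F (I i))
        have a3 := hD.cI i i.2 (sd l)
        have a4 := hD.cN i i.2 (sd l)
        have a6 := hpow i i.2.le
        nlinarith
      rw [sum_const, card_univ, Fintype.card_fin, nsmul_eq_mul] at h4
      have h5 : (T : ℝ) * (c + (μ₀ * 16 ^ T + δ)) ≤ κ / 4 := by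
        have h6 : (T : ℝ) * (c + (μ₀ * 16 ^ T + δ)) ≤ T * (3 * (μ₀ * 16 ^ T)) :=
          mul_le_mul_of_nonneg_left (by linarith) (by positivity)
        nlinarith
      nlinarith
    have h7 : cnt side (sd l) (Bx l) ≤ κ / 4 * n := by
      refine (cnt_biUnion side (sd l) _ _).trans ?_
      have h4 : ∑ i : Fin T, cnt side (sd l) (if l < i then (Q₀ l).filter
          fun x => θ * n < (((Q₀ i).filter fun y => F.Adj (f l x) (f i y)).card : ℝ) else ∅) ≤
          ∑ _i : Fin T, η / θ * n := by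
        refine sum_le_sum fun i _ => ?_
        split_ifs with hli
        · refine (cnt_le_card _ _ _).trans ?_
          apply card_badx (Q₀ l) (Q₀ i) (fun x y => F.Adj (f l x) (f i y)) hn0 hθ hη.le
            (card_qq_le H _ _)
          intro y hy
          have := hSbad i l hli (f i y) (hpick i y hy).1
          refine le_trans ?_ this
          norm_cast
          apply card_le_card
          intro x hx
          rw [mem_filter] at hx ⊢
          exact ⟨hx.1, hx.2.symm⟩
        · simp only [cnt, filter_empty, card_empty, Nat.cast_zero]; positivity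
      rw [sum_const, card_univ, Fintype.card_fin, nsmul_eq_mul] at h4
      have h5 : (T : ℝ) * (η / θ * n) ≤ κ / 4 * n := by
        have h6 : η / θ = κ / (4 * (T + 1)) := by
          rw [hηd]; field_simp
        rw [h6, ← mul_assoc]
        refine mul_le_mul_of_nonneg_right ?_ hn0.le
        rw [mul_div_assoc', div_le_div_iff₀ (by positivity) (by norm_num)]
        nlinarith
      linarith
    have h8 := cnt_le_card side (sd l) (Q₀ l \ (X ∪ Bx l))
    linarith
  · intro l l' hll x hx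
    have hx0 := (mem_sdiff.mp hx).1
    rcases lt_or_gt_of_ne hll with h | h
    · have h1 := (mem_sdiff.mp hx).2
      simp only [hBx, mem_union, not_or, mem_biUnion, mem_univ, true_and, not_exists] at h1
      have h2 := h1.2 l'
      rw [if_pos h, mem_filter] at h2
      push Not at h2
      refine le_trans ?_ (h2 hx0)
      exact_mod_cast card_le_card (filter_subset_filter _ sdiff_subset)
    · refine le_trans ?_ ((hSbad l l' h _ (hpick l x hx0).1).trans
        (mul_le_mul_of_nonneg_right hηθ hn0.le))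
      exact_mod_cast card_le_card (filter_subset_filter _ sdiff_subset)
  · intro b
    have hsub : (univ.biUnion fun l : Fin T => (I l ∪ (Q₀ l \ (X ∪ Bx l)).image (f l)) ∪
        nbh F (I l ∪ (Q₀ l \ (X ∪ Bx l)).image (f l))) ⊆
        univ.biUnion fun l : Fin T => (I l ∪ nbh F (I l)) ∪ nbh F (S l) := by
      intro v hv
      simp only [mem_biUnion, mem_univ, true_and] at hv ⊢
      obtain ⟨l, hv⟩ := hv
      refine ⟨l, ?_⟩
      have hSl := hD.sub l l.2
      have himg : ∀ w ∈ (Q₀ l \ (X ∪ Bx l)).image (f l), w ∈ S l := by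
        intro w hw
        obtain ⟨x, hx, rfl⟩ := mem_image.mp hw
        exact (hpick l x (mem_sdiff.mp hx).1).1
      rcases mem_union.mp hv with hv | hv
      · rcases mem_union.mp hv with hv | hv
        · exact mem_union_left _ (mem_union_left _ hv)
        · exact mem_union_left _ (mem_union_right _ (hSl (himg v hv)))
      · simp only [nbh, mem_filter, mem_univ, true_and] at hv
        obtain ⟨s, hs, hsv⟩ := hv
        rcases mem_union.mp hs with hs | hs
        · exact mem_union_left _ (mem_union_right _ (hmemN _ _ _ hs hsv))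
        · exact mem_union_right _ (hmemN _ _ _ (himg s hs) hsv)
    refine (cnt_mono side b hsub).trans ((cnt_biUnion side b _ _).trans ?_)
    have h4 : ∑ i : Fin T, cnt side b ((I i ∪ nbh F (I i)) ∪ nbh F (S i)) ≤
        ∑ _i : Fin T, (c + (μ₀ * 16 ^ T + δ) + (κ + δ)) * n := by
      refine sum_le_sum fun i _ => ?_
      have a1 := cnt_union side b (I i ∪ nbh F (I i)) (nbh F (S i))
      have a2 := cnt_union side b (I i) (nbh F (I i))
      have a3 := hD.cI i i.2 b
      have a4 := hD.cN i i.2 b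
      have a5 := hD.cS i i.2 b
      have a6 := hpow i i.2.le
      nlinarith
    rw [sum_const, card_univ, Fintype.card_fin, nsmul_eq_mul] at h4
    have h5 : (T : ℝ) * (c + (μ₀ * 16 ^ T + δ) + (κ + δ)) ≤ 1 / 4 := by
      have h6 : (T : ℝ) * (c + (μ₀ * 16 ^ T + δ) + (κ + δ)) ≤ T * (4 * κ) :=
        mul_le_mul_of_nonneg_left (by linarith) (by positivity)
      nlinarith
    nlinarith

end Pool.Agent.Helper32.PD.H82
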